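import Pool.Agent.Q138.PS.XD
import Pool.Agent.TH43.LK.Main
import Pool.Agent.H95R2.Leh.Congr

/-!
# The congruence `N ≡ a(N) (mod φ(N))` for the multiples of the primes close to the powers of a real number

Let `3/2 ≤ a` and `l < 1`. There is a set `E` of real numbers of Hausdorff dimension at most `(a - 3/2) / (1 - l)` such that
for each real `α > 1` outside `E`, all algebraic numbers `c > 0`, all integers `j`, all `D` and all large `n` the following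
holds: NO prime `p` with `|p - c n^j α^n| ≤ D (c n^j α^n)^l` has a composite multiple `4 < N ≤ p ^ a` with
`φ(N) ∣ N - a(N)`. (For `a < 5/2 - l` the dimension is smaller than one; for `a < 2` this is trivial for all primes.)
-/

set_option autoImplicit false

namespace Pool.Agent.Results.MP_b50d59_nt.PrimesNearPowers

open Finset Filter Pool.Agent.Q138.PS Pool.Agent.H95R2.Leh Pool.Agent.TH43.LK

/-- `N > 4` is composite and `φ(N)` divides `N - a(N)` -/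
def Solution (N : ℕ) : Prop := 4 < N ∧ ¬ N.Prime ∧ N.totient ∣ N - Nca8c8b9b.a N

/-- the primes with a solution `N ≤ p ^ a` among their multiples -/
def Bad (a : ℝ) : Set ℕ := {p | p.Prime ∧ ∃ N : ℕ, p ∣ N ∧ Solution N ∧ (N : ℝ) ≤ (p : ℝ) ^ a}

lemma card_primes {N : ℕ} (hN : N ≠ 0) : N.primeFactors.card ≤ Nat.log 2 N := by
  have h1 : 2 ^ N.primeFactors.card ≤ N := by
    calc 2 ^ N.primeFactors.card = ∏ _p ∈ N.primeFactors, 2 := by rw [prod_const]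
      _ ≤ ∏ p ∈ N.primeFactors, p := prod_le_prod' fun p hp => (Nat.prime_of_mem_primeFactors hp).two_le
      _ ≤ N := Nat.le_of_dvd (Nat.pos_of_ne_zero hN) (Nat.prod_primeFactors_dvd N)
  exact Nat.le_log_of_pow_le (by norm_num) h1

lemma count (a : ℝ) (h1 : 3 / 2 ≤ a) (ε : ℝ) (hε : 0 < ε) : ∃ C : ℝ, ∀ᶠ T : ℕ in atTop,
    (({m | m ∈ Bad a ∧ m ≤ T ∧ T ≤ 2 * m}).ncard : ℝ) ≤ C * (T : ℝ) ^ (a - 3 / 2 + ε) := by
  classical
  have ha0 : 0 < a := by linarith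
  obtain ⟨C1, hC1, hm1⟩ := main_two (ε / (2 * a)) (by positivity)
  refine ⟨C1 * 8 ^ (3 / 2 : ℝ) * (a * (2 / ε) / Real.log 2), ?_⟩
  filter_upwards [eventually_ge_atTop 16] with T h5
  have hT16 : (16 : ℝ) ≤ T := by exact_mod_cast h5
  have hT0 : (0 : ℝ) < T := by linarith
  have hT1 : (1 : ℝ) ≤ T := by linarith
  obtain ⟨x, hx⟩ : ∃ x : ℕ, x = ⌊(T : ℝ) ^ a⌋₊ := ⟨_, rfl⟩
  have hxle : (x : ℝ) ≤ (T : ℝ) ^ a := by rw [hx]; exact Nat.floor_le (by positivity)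
  have hx1 : 1 ≤ x := by
    rw [hx]
    exact Nat.le_floor (by exact_mod_cast Real.one_le_rpow hT1 ha0.le)
  have hx0 : (0 : ℝ) < x := by exact_mod_cast hx1
  obtain ⟨y, hy⟩ : ∃ y : ℕ, y = ⌊(T : ℝ) / 4⌋₊ := ⟨_, rfl⟩
  have hyle : (y : ℝ) ≤ (T : ℝ) / 4 := by rw [hy]; exact Nat.floor_le (by positivity)
  have hyge : (T : ℝ) / 8 ≤ y := by
    have := Nat.lt_floor_add_one ((T : ℝ) / 4)
    rw [← hy] at this
    linarith
  have hy0 : (0 : ℝ) < y := by linarith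
  have hy1 : 1 ≤ y := by exact_mod_cast hy0
  have hsub : {m | m ∈ Bad a ∧ m ≤ T ∧ T ≤ 2 * m} ⊆ ↑((AA x y).biUnion fun N => N.primeFactors) := by
    rintro p ⟨⟨hp, N, hpN, ⟨h6, h7, h8⟩, hNa⟩, h9, h10⟩
    rw [Finset.mem_coe, mem_biUnion]
    have hNx : N ≤ x := by
      rw [hx]
      refine Nat.le_floor (hNa.trans ?_)
      exact Real.rpow_le_rpow (by positivity) (by exact_mod_cast h9) ha0.le
    refine ⟨N, ?_, Nat.mem_primeFactors.2 ⟨hp, hpN, by omega⟩⟩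
    unfold AA
    rw [mem_filter, mem_Icc]
    refine ⟨⟨by omega, hNx⟩, leh_of_congr h6 h7 h8, p, hp, hpN, ?_⟩
    have h11 : (T : ℝ) / 2 ≤ p := by
      have : (T : ℝ) ≤ 2 * p := by exact_mod_cast h10
      linarith
    have h13 : (y : ℝ) < p := by linarith
    exact_mod_cast h13
  have hcard : ((AA x y).biUnion fun N => N.primeFactors).card ≤ (AA x y).card * Nat.log 2 x := by
    refine card_biUnion_le_card_mul _ _ _ fun N hN => ?_
    unfold AA at hN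
    rw [mem_filter, mem_Icc] at hN
    exact (card_primes (by omega)).trans (Nat.log_mono_right hN.1.2)
  have hc : (({m | m ∈ Bad a ∧ m ≤ T ∧ T ≤ 2 * m}).ncard : ℝ) ≤ ((AA x y).card : ℝ) * (Nat.log 2 x : ℕ) := by
    have h6 := Set.ncard_le_ncard hsub (finite_toSet _)
    rw [Set.ncard_coe_finset] at h6
    exact_mod_cast h6.trans hcard
  have hlog : ((Nat.log 2 x : ℕ) : ℝ) ≤ a * (2 / ε) / Real.log 2 * (T : ℝ) ^ (ε / 2) := by
    have h6 : ((Nat.log 2 x : ℕ) : ℝ) ≤ Real.log x / Real.log 2 := by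
      have h7 := Real.natLog_le_logb x 2
      rwa [Real.logb] at h7
    have h7 : Real.log x ≤ a * Real.log T := by
      rw [← Real.log_rpow hT0]
      exact Real.log_le_log hx0 hxle
    have h8 : Real.log T ≤ (T : ℝ) ^ (ε / 2) / (ε / 2) := Real.log_le_rpow_div hT0.le (by positivity)
    have hl2 : 0 < Real.log 2 := Real.log_pos (by norm_num)
    have h9 : a * Real.log T ≤ a * ((T : ℝ) ^ (ε / 2) / (ε / 2)) := mul_le_mul_of_nonneg_left h8 ha0.le
    refine h6.trans ?_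
    rw [div_le_iff₀ hl2]
    refine (h7.trans h9).trans (le_of_eq ?_)
    field_simp
  have b2 : ((AA x y).card : ℝ) ≤ C1 * 8 ^ (3 / 2 : ℝ) * (T : ℝ) ^ (a - 3 / 2 + ε / 2) := by
    refine (hm1 x y hy1).trans ?_
    have h5' : (x : ℝ) ^ (ε / (2 * a)) ≤ (T : ℝ) ^ (ε / 2) := by
      refine (Real.rpow_le_rpow hx0.le hxle (by positivity)).trans (le_of_eq ?_)
      rw [← Real.rpow_mul hT0.le]
      congr 1
      field_simp
    have h6 : (x : ℝ) / (y : ℝ) ^ (3 / 2 : ℝ) ≤ 8 ^ (3 / 2 : ℝ) * (T : ℝ) ^ (a - 3 / 2) := by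
      rw [div_le_iff₀ (by positivity)]
      have h7 : ((T : ℝ) / 8) ^ (3 / 2 : ℝ) ≤ (y : ℝ) ^ (3 / 2 : ℝ) :=
        Real.rpow_le_rpow (by positivity) hyge (by norm_num)
      have h8 : ((T : ℝ) / 8) ^ (3 / 2 : ℝ) = (T : ℝ) ^ (3 / 2 : ℝ) / 8 ^ (3 / 2 : ℝ) :=
        Real.div_rpow (by positivity) (by norm_num) _
      have h9 : (T : ℝ) ^ a = (T : ℝ) ^ (a - 3 / 2) * (T : ℝ) ^ (3 / 2 : ℝ) := by
        rw [← Real.rpow_add hT0]
        congr 1
        ring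
      have h10 : (0 : ℝ) < 8 ^ (3 / 2 : ℝ) := by positivity
      calc (x : ℝ) ≤ (T : ℝ) ^ a := hxle
        _ = 8 ^ (3 / 2 : ℝ) * (T : ℝ) ^ (a - 3 / 2) * ((T : ℝ) ^ (3 / 2 : ℝ) / 8 ^ (3 / 2 : ℝ)) := by
            rw [h9]
            field_simp
        _ ≤ 8 ^ (3 / 2 : ℝ) * (T : ℝ) ^ (a - 3 / 2) * (y : ℝ) ^ (3 / 2 : ℝ) := by
            rw [← h8]
            exact mul_le_mul_of_nonneg_left h7 (by positivity)
    calc C1 * (x : ℝ) ^ (ε / (2 * a)) * ((x : ℝ) / (y : ℝ) ^ (3 / 2 : ℝ)) ≤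
          C1 * (T : ℝ) ^ (ε / 2) * (8 ^ (3 / 2 : ℝ) * (T : ℝ) ^ (a - 3 / 2)) :=
        mul_le_mul (mul_le_mul_of_nonneg_left h5' hC1.le) h6 (by positivity) (by positivity)
      _ = C1 * 8 ^ (3 / 2 : ℝ) * (T : ℝ) ^ (a - 3 / 2 + ε / 2) := by
        rw [Real.rpow_add hT0]
        ring
  refine hc.trans ((mul_le_mul b2 hlog (by positivity) (by positivity)).trans (le_of_eq ?_))
  have h10 : (T : ℝ) ^ (a - 3 / 2 + ε) = (T : ℝ) ^ (a - 3 / 2 + ε / 2) * (T : ℝ) ^ (ε / 2) := by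
    rw [← Real.rpow_add hT0]
    congr 1
    ring
  rw [h10]
  ring

/-- **Theorem.** Let `3/2 ≤ a` and `l < 1`. There is a set `E` of real numbers of Hausdorff dimension at most
`(a - 3/2) / (1 - l)` such that for each `α > 1` outside `E`, all algebraic `c > 0`, all integers `j`, all `D` and all large
`n`: no prime `p` with `|p - c n^j α^n| ≤ D (c n^j α^n)^l` has a composite multiple `4 < N ≤ p^a` with
`φ(N) ∣ N - a(N)`. -/
theorem result (a : ℝ) (h1 : 3 / 2 ≤ a) (l : ℝ) (hl : l < 1) :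
    ∃ E : Set ℝ, dimH E ≤ ENNReal.ofReal ((a - 3 / 2) / (1 - l)) ∧
      ∀ α : ℝ, 1 < α → α ∉ E → ∀ c : ℝ, 0 < c → IsAlgebraic ℚ c → ∀ (j : ℤ) (D : ℝ), ∀ᶠ n : ℕ in atTop,
        ∀ p : ℕ, p.Prime → NearPow α c j D l n p → ∀ N : ℕ, p ∣ N → Solution N → (p : ℝ) ^ a < (N : ℝ) := by
  have he : 0 ≤ a - 3 / 2 := by linarith
  obtain ⟨E, hE, hg⟩ := pow_alg_one (Bad a) (a - 3 / 2) l he hl (count_halves_large (Bad a) (a - 3 / 2) he (count a h1))
  refine ⟨E, hE, fun α hα hαE c hc hca j D => ?_⟩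
  filter_upwards [hg α hα hαE c hc hca j D] with n hn p hp hpn N hpN hs
  by_contra hcon
  exact hn p hpn ⟨hp, N, hpN, hs, not_lt.1 hcon⟩

end Pool.Agent.Results.MP_b50d59_nt.PrimesNearPowers
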