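import Mathlib
import Pool.Prelude.Def_F_72ad9e24
import Pool.Agent.Q263.LT.Pow

/-!
# Composite solutions of `φ(N) ∣ N - a(N)` near integers with restricted digits

Call `N > 4` a *solution* if it is composite and `φ(N)` divides `N - a(N)` (this is Lehmer's
totient problem: no solution is known). Fix a base `b ≥ 2`. For `k ≥ 1` choose for every position
`i < k` a set `D i` of at least two digits, in any way (the sets may depend on the position and on
`k`), and let `S` be the set of the integers `0 ≤ n < b ^ k` whose `i`-th digit is in `D i` for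
every `i`. So `S` may have only `2 ^ k` elements, an arbitrarily small power of `b ^ k` if `b` is
large. Let `h` be an integer; we look for solutions of the form `|n + h|` with `n ∈ S`.

* There are `L` and `C`, which depend on `b` only, such that for all `k`, all choices of the sets of
  digits and all `h` with `|h| ≤ 2 ^ 2 ^ ⌊k / L⌋` at most `C |S| / 2 ^ ⌊k / L⌋` elements `n` of `S`
  give a solution `|n + h|`. So all but `|S| ^ (1 - c)` elements of `S + h` are not solutions.
* For all integers `h`, at most `C |S| / 2 ^ ⌊k / L⌋` elements of `S` give a solution with at most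
  `2 ^ ⌊k / L⌋` prime factors.
* For all integers `h`, at most `C |S| log k / k` elements of `S` give a solution.
* Let `0 < a < 1`. There are `B` and `C` such that for all `k`, all choices of the sets of digits,
  all integers `h` and all `P ≥ 1` at most `C |S| P ^ (-a)` elements of `S` give a solution which
  has a divisor `d`, coprime to `b`, with `P < d ≤ b ^ (k / B)`.

Idea of the proof: for a divisor `d` of a solution `N` one has `N ≡ 0` modulo `d` and `N ≡ 1`
modulo `φ(d)`; the integers of `S` are well distributed modulo all integers up to a power of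
`b ^ k` which are coprime to `b` (`Pool.Agent.Q263.MD`), and the part of `φ(d)` composed of the
primes of `b` is small on average. If `N` has no divisor in `(y, y ^ 2]` coprime to `b`, then
`N = u m` with `u ≤ b y` and all primes of `m` larger than `y ^ 2`. Then `N / φ(N)` is too close to
`u / φ(u)` for `(N - 1) / φ(N)` to be an integer. The bound for all `h` uses a sieve.
-/

set_option autoImplicit false

namespace Pool.Agent.Results.MP_b50d59_nt.RestrictedDigits

open Finset

/-- The integers `0 ≤ n < b ^ k` whose `i`-th digit in base `b` belongs to `D i`, for all `i < k`. -/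
def Restricted (b k : ℕ) (D : Fin k → Finset ℕ) : Finset ℕ :=
  (Finset.range (b ^ k)).filter (fun n => ∀ i : Fin k, n / b ^ (i : ℕ) % b ∈ D i)

/-- Each `D i` is a set of at least two digits. -/
def DigitSets (b k : ℕ) (D : Fin k → Finset ℕ) : Prop :=
  ∀ i, (∀ d ∈ D i, d < b) ∧ 2 ≤ (D i).card

/-- `N > 4` is composite and `φ(N)` divides `N - a(N)`, where `a(N)` is the largest exponent in the
factorisation of `N`. -/
def Solution (N : ℕ) : Prop :=
  4 < N ∧ ¬ N.Prime ∧ N.totient ∣ N - Nca8c8b9b.a N

lemma mono {S : Finset ℕ} {p q : ℕ → Prop} {ip : DecidablePred p} {iq : DecidablePred q} {X : ℝ}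
    (hX : ((S.filter q).card : ℝ) ≤ X) (h : ∀ n, p n → q n) : ((S.filter p).card : ℝ) ≤ X := by
  refine le_trans ?_ hX
  have : S.filter p ⊆ S.filter q := by
    intro n hn
    rw [Finset.mem_filter] at hn ⊢
    exact ⟨hn.1, h n hn.2⟩
  exact_mod_cast Finset.card_le_card this

open Classical in
theorem result : ∀ b : ℕ, 2 ≤ b →
    (∃ (L : ℕ) (C : ℝ), 1 ≤ L ∧ ∀ (k : ℕ) (D : Fin k → Finset ℕ), DigitSets b k D → ∀ h : ℤ,
      (h.natAbs ≤ 2 ^ 2 ^ (k / L) →
        (((Restricted b k D).filter (fun n : ℕ => Solution ((n : ℤ) + h).natAbs)).card : ℝ) ≤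
          C * (Restricted b k D).card / 2 ^ (k / L)) ∧
      (((Restricted b k D).filter (fun n : ℕ => Solution ((n : ℤ) + h).natAbs ∧
          ((n : ℤ) + h).natAbs.primeFactors.card ≤ 2 ^ (k / L))).card : ℝ) ≤
        C * (Restricted b k D).card / 2 ^ (k / L)) ∧
    (∃ C : ℝ, ∀ k : ℕ, 2 ≤ k → ∀ D : Fin k → Finset ℕ, DigitSets b k D → ∀ h : ℤ,
      (((Restricted b k D).filter (fun n : ℕ => Solution ((n : ℤ) + h).natAbs)).card : ℝ) ≤
        C * (Restricted b k D).card * Real.log k / k) ∧
    ∀ a : ℝ, 0 < a → a < 1 → ∃ (B : ℕ) (C : ℝ), 1 ≤ B ∧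
      ∀ (k : ℕ) (D : Fin k → Finset ℕ), DigitSets b k D → ∀ (h : ℤ) (P : ℕ), 1 ≤ P →
        (((Restricted b k D).filter (fun n : ℕ => Solution ((n : ℤ) + h).natAbs ∧
          ∃ d, d ∣ ((n : ℤ) + h).natAbs ∧ d.Coprime b ∧ P < d ∧ d ^ B ≤ b ^ k)).card : ℝ) ≤
          C * (Restricted b k D).card * (P : ℝ) ^ (-a) := by
  intro b hb
  have key : ∀ N : ℕ, Solution N → Pool.Agent.H95R2.Leh.Leh N := fun N h =>
    Pool.Agent.H95R2.Leh.leh_of_congr h.1 h.2.1 h.2.2
  have eS : ∀ (k : ℕ) (D : Fin k → Finset ℕ), Pool.Agent.Q263.MD.Dig b k D = Restricted b k D :=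
    fun _ _ => rfl
  refine ⟨?_, ?_, ?_⟩
  · obtain ⟨L, C, hL, -, h1⟩ := Pool.Agent.Q263.LT.power1 hb
    refine ⟨L, C, hL, fun k D hD h => ?_⟩
    have h2 := h1 k D (fun i => (hD i).1) (fun i => (hD i).2) h
    rw [eS] at h2
    refine ⟨fun hh => ?_, ?_⟩
    · refine mono h2 ?_
      intro n hn
      exact ⟨key _ hn, Or.inl hh⟩
    · refine mono h2 ?_
      intro n hn
      exact ⟨key _ hn.1, Or.inr hn.2⟩
  · obtain ⟨C, -, h1⟩ := Pool.Agent.Q263.LT.all hb
    refine ⟨C, fun k hk D hD h => ?_⟩
    have h2 := h1 k hk D (fun i => (hD i).1) (fun i => (hD i).2) h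
    rw [eS] at h2
    refine mono h2 ?_
    intro n hn
    exact key _ hn
  · intro a ha0 ha1
    obtain ⟨B, C, hB, -, h1⟩ := Pool.Agent.Q263.LT.bigd hb a ha0 ha1
    refine ⟨B, C, hB, fun k D hD h P hP => ?_⟩
    have h2 := h1 k D (fun i => (hD i).1) (fun i => (hD i).2) h P hP
    rw [eS] at h2
    refine mono h2 ?_
    intro n hn
    exact ⟨key _ hn.1, hn.2⟩

end Pool.Agent.Results.MP_b50d59_nt.RestrictedDigits
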