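import Pool.Agent.Q138.PS.XD
import Pool.Agent.TH43.LK.Main
import Pool.Agent.H95R2.Leh.Congr

/-!
# The congruence `N ≡ a(N) (mod φ(N))` close to the powers of a real number

Let `1/4 < β < 1/2` and `l < 1`. There is a set `E` of real numbers of Hausdorff dimension at most `e / (1 - l)`,
`e = min (2 (1 - β) / 3) (1 - 3 β / 2)`, such that for each real `α > 1` outside `E`, all algebraic numbers `c > 0`, all
integers `j`, all `D` and all large `n` the following holds: every composite `N > 4` with `φ(N) ∣ N - a(N)` and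
`|N - c n^j α^n| ≤ D (c n^j α^n)^l` has only prime factors `< N ^ β`. (For `β ≥ 1/2` this is so for all solutions.)
-/

set_option autoImplicit false

namespace Pool.Agent.Results.MP_b50d59_nt.SolutionsNearPowers

open Finset Filter Pool.Agent.Q138.PS Pool.Agent.H95R2.Leh Pool.Agent.TH43.LK

/-- `N > 4` is composite and `φ(N)` divides `N - a(N)` -/
def Solution (N : ℕ) : Prop := 4 < N ∧ ¬ N.Prime ∧ N.totient ∣ N - Nca8c8b9b.a N

/-- the solutions with a prime factor of size at least `N ^ β` -/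
def Bad (β : ℝ) : Set ℕ := {N | Solution N ∧ ∃ p : ℕ, p.Prime ∧ p ∣ N ∧ (N : ℝ) ^ β ≤ p}

/-- the exponent of the number of the solutions with a prime factor of size at least `N ^ β` -/
noncomputable def ex (β : ℝ) : ℝ := min (2 * (1 - β) / 3) (1 - 3 * β / 2)

lemma count (β : ℝ) (h1 : 1 / 4 < β) (h2 : β < 1 / 2) (ε : ℝ) (hε : 0 < ε) : ∃ C : ℝ, ∀ᶠ T : ℕ in atTop,
    (({m | m ∈ Bad β ∧ m ≤ T ∧ T ≤ 2 * m}).ncard : ℝ) ≤ C * (T : ℝ) ^ (ex β + ε) := by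
  classical
  obtain ⟨C1, hC1, hm1⟩ := main_one ε hε
  obtain ⟨C2, hC2, hm2⟩ := main_two ε hε
  have hβ0 : 0 < β := by linarith
  refine ⟨max (C1 * 8 ^ (2 / 3 : ℝ)) (C2 * 8 ^ (3 / 2 : ℝ)), ?_⟩
  have e1 : ∀ᶠ T : ℕ in atTop, (8 : ℝ) ≤ ((T : ℝ) / 2) ^ β :=
    ((tendsto_rpow_atTop hβ0).comp (tendsto_natCast_atTop_atTop.atTop_div_const (by norm_num))).eventually_ge_atTop 8
  have e2 : ∀ᶠ T : ℕ in atTop, (4096 : ℝ) ≤ (T : ℝ) ^ (4 * β - 1) :=
    ((tendsto_rpow_atTop (by linarith : 0 < 4 * β - 1)).comp tendsto_natCast_atTop_atTop).eventually_ge_atTop _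
  filter_upwards [e1, e2, eventually_ge_atTop 2] with T h3 h4 h5
  have hT0 : (0 : ℝ) < T := by
    have : 0 < T := by omega
    exact_mod_cast this
  have hT1 : (1 : ℝ) ≤ T := by
    have : 1 ≤ T := by omega
    exact_mod_cast this
  obtain ⟨y, hy⟩ : ∃ y : ℕ, y = ⌊((T : ℝ) / 2) ^ β / 2⌋₊ := ⟨_, rfl⟩
  have hyle : (y : ℝ) ≤ ((T : ℝ) / 2) ^ β / 2 := by
    rw [hy]
    exact Nat.floor_le (by positivity)
  have hyge : ((T : ℝ) / 2) ^ β / 4 ≤ y := by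
    have := Nat.lt_floor_add_one (((T : ℝ) / 2) ^ β / 2)
    rw [← hy] at this
    linarith
  have hTβ : (T : ℝ) ^ β ≤ 2 * ((T : ℝ) / 2) ^ β := by
    have e3 : (T : ℝ) = 2 * ((T : ℝ) / 2) := by ring
    have e4 : (T : ℝ) ^ β = 2 ^ β * ((T : ℝ) / 2) ^ β := by
      conv_lhs => rw [e3]
      rw [Real.mul_rpow (by norm_num) (by positivity)]
    rw [e4]
    have e5 : (2 : ℝ) ^ β ≤ 2 ^ (1 : ℝ) := Real.rpow_le_rpow_of_exponent_le (by norm_num) (by linarith)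
    rw [Real.rpow_one] at e5
    exact mul_le_mul_of_nonneg_right e5 (by positivity)
  have hyT : (T : ℝ) ^ β / 8 ≤ y := by linarith
  have hy0 : (0 : ℝ) < y := lt_of_lt_of_le (by positivity) hyT
  have hy1 : 1 ≤ y := by exact_mod_cast hy0
  have hsub : {m | m ∈ Bad β ∧ m ≤ T ∧ T ≤ 2 * m} ⊆ ↑(AA T y) := by
    rintro m ⟨⟨⟨h6, h7, h8⟩, p, hp, hpm, hp2⟩, h9, h10⟩
    unfold AA
    rw [Finset.mem_coe, mem_filter, mem_Icc]
    refine ⟨⟨by omega, h9⟩, leh_of_congr h6 h7 h8, p, hp, hpm, ?_⟩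
    have h11 : (T : ℝ) / 2 ≤ m := by
      have : (T : ℝ) ≤ 2 * m := by exact_mod_cast h10
      linarith
    have h12 : ((T : ℝ) / 2) ^ β ≤ (m : ℝ) ^ β := Real.rpow_le_rpow (by positivity) h11 hβ0.le
    have h13 : (y : ℝ) < p := by linarith
    exact_mod_cast h13
  have hc : (({m | m ∈ Bad β ∧ m ≤ T ∧ T ≤ 2 * m}).ncard : ℝ) ≤ (AA T y).card := by
    have := Set.ncard_le_ncard hsub (finite_toSet _)
    rw [Set.ncard_coe_finset] at this
    exact_mod_cast this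
  have hx4 : T ≤ y ^ 4 := by
    have h6 : ((T : ℝ) ^ β / 8) ^ 4 ≤ (y : ℝ) ^ 4 := pow_le_pow_left₀ (by positivity) hyT 4
    have h7 : ((T : ℝ) ^ β / 8) ^ 4 = (T : ℝ) ^ (4 * β - 1) * T / 4096 := by
      rw [div_pow, ← Real.rpow_natCast ((T : ℝ) ^ β) 4, ← Real.rpow_mul hT0.le, ← Real.rpow_add_one hT0.ne']
      norm_num
      ring_nf
    have h8 : (T : ℝ) ≤ ((T : ℝ) ^ β / 8) ^ 4 := by
      rw [h7, le_div_iff₀ (by norm_num)]
      nlinarith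
    exact_mod_cast h8.trans h6
  have b1 : ((AA T y).card : ℝ) ≤ C1 * 8 ^ (2 / 3 : ℝ) * (T : ℝ) ^ (2 * (1 - β) / 3 + ε) := by
    refine (hm1 T y hy1 hx4).trans ?_
    have h6 : (T : ℝ) / y ≤ 8 * (T : ℝ) ^ (1 - β) := by
      rw [div_le_iff₀ hy0]
      have h7 : (T : ℝ) = (T : ℝ) ^ (1 - β) * (T : ℝ) ^ β := by
        rw [← Real.rpow_add hT0]
        simp
      have h8 : (T : ℝ) ^ (1 - β) * ((T : ℝ) ^ β / 8) ≤ (T : ℝ) ^ (1 - β) * y :=
        mul_le_mul_of_nonneg_left hyT (by positivity)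
      calc (T : ℝ) = 8 * ((T : ℝ) ^ (1 - β) * ((T : ℝ) ^ β / 8)) := by rw [← mul_div_assoc, ← h7]; ring
        _ ≤ 8 * ((T : ℝ) ^ (1 - β) * y) := by linarith
        _ = 8 * (T : ℝ) ^ (1 - β) * y := by ring
    have h7 : ((T : ℝ) / y) ^ (2 / 3 : ℝ) ≤ 8 ^ (2 / 3 : ℝ) * (T : ℝ) ^ (2 * (1 - β) / 3) := by
      refine (Real.rpow_le_rpow (by positivity) h6 (by norm_num)).trans (le_of_eq ?_)
      rw [Real.mul_rpow (by norm_num) (by positivity), ← Real.rpow_mul hT0.le]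
      congr 2
      ring
    calc C1 * (T : ℝ) ^ ε * ((T : ℝ) / y) ^ (2 / 3 : ℝ) ≤
          C1 * (T : ℝ) ^ ε * (8 ^ (2 / 3 : ℝ) * (T : ℝ) ^ (2 * (1 - β) / 3)) :=
        mul_le_mul_of_nonneg_left h7 (by positivity)
      _ = C1 * 8 ^ (2 / 3 : ℝ) * (T : ℝ) ^ (2 * (1 - β) / 3 + ε) := by
        rw [Real.rpow_add hT0]
        ring
  have b2 : ((AA T y).card : ℝ) ≤ C2 * 8 ^ (3 / 2 : ℝ) * (T : ℝ) ^ (1 - 3 * β / 2 + ε) := by
    refine (hm2 T y hy1).trans ?_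
    have h6 : (T : ℝ) / (y : ℝ) ^ (3 / 2 : ℝ) ≤ 8 ^ (3 / 2 : ℝ) * (T : ℝ) ^ (1 - 3 * β / 2) := by
      rw [div_le_iff₀ (by positivity)]
      have h7 : ((T : ℝ) ^ β / 8) ^ (3 / 2 : ℝ) ≤ (y : ℝ) ^ (3 / 2 : ℝ) :=
        Real.rpow_le_rpow (by positivity) hyT (by norm_num)
      have h8 : ((T : ℝ) ^ β / 8) ^ (3 / 2 : ℝ) = (T : ℝ) ^ (3 * β / 2) / 8 ^ (3 / 2 : ℝ) := by
        rw [Real.div_rpow (by positivity) (by norm_num), ← Real.rpow_mul hT0.le]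
        congr 2
        ring
      have h9 : (T : ℝ) = (T : ℝ) ^ (1 - 3 * β / 2) * (T : ℝ) ^ (3 * β / 2) := by
        rw [← Real.rpow_add hT0]
        simp
      have h10 : (0 : ℝ) < 8 ^ (3 / 2 : ℝ) := by positivity
      calc (T : ℝ) = 8 ^ (3 / 2 : ℝ) * (T : ℝ) ^ (1 - 3 * β / 2) * ((T : ℝ) ^ (3 * β / 2) / 8 ^ (3 / 2 : ℝ)) := by
            rw [mul_assoc, mul_div_assoc', ← h9]
            field_simp
        _ ≤ 8 ^ (3 / 2 : ℝ) * (T : ℝ) ^ (1 - 3 * β / 2) * (y : ℝ) ^ (3 / 2 : ℝ) := by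
            rw [← h8]
            exact mul_le_mul_of_nonneg_left h7 (by positivity)
    calc C2 * (T : ℝ) ^ ε * ((T : ℝ) / (y : ℝ) ^ (3 / 2 : ℝ)) ≤
          C2 * (T : ℝ) ^ ε * (8 ^ (3 / 2 : ℝ) * (T : ℝ) ^ (1 - 3 * β / 2)) :=
        mul_le_mul_of_nonneg_left h6 (by positivity)
      _ = C2 * 8 ^ (3 / 2 : ℝ) * (T : ℝ) ^ (1 - 3 * β / 2 + ε) := by
        rw [Real.rpow_add hT0]
        ring
  refine hc.trans ?_
  unfold ex
  rcases min_choice (2 * (1 - β) / 3) (1 - 3 * β / 2) with h | h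
  · rw [h]
    exact b1.trans (mul_le_mul_of_nonneg_right (le_max_left _ _) (by positivity))
  · rw [h]
    exact b2.trans (mul_le_mul_of_nonneg_right (le_max_right _ _) (by positivity))

/-- **Theorem.** Let `1/4 < β < 1/2` and `l < 1`. There is a set `E` of real numbers of Hausdorff dimension at most
`min (2 (1 - β) / 3) (1 - 3 β / 2) / (1 - l)` such that for each `α > 1` outside `E`, all algebraic `c > 0`, all integers `j`,
all `D` and all large `n`: every composite `N > 4` with `φ(N) ∣ N - a(N)` and `|N - c n^j α^n| ≤ D (c n^j α^n)^l` has only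
prime factors `< N ^ β`. -/
theorem result (β : ℝ) (h1 : 1 / 4 < β) (h2 : β < 1 / 2) (l : ℝ) (hl : l < 1) :
    ∃ E : Set ℝ, dimH E ≤ ENNReal.ofReal (min (2 * (1 - β) / 3) (1 - 3 * β / 2) / (1 - l)) ∧
      ∀ α : ℝ, 1 < α → α ∉ E → ∀ c : ℝ, 0 < c → IsAlgebraic ℚ c → ∀ (j : ℤ) (D : ℝ), ∀ᶠ n : ℕ in atTop,
        ∀ N : ℕ, NearPow α c j D l n N → Solution N → ∀ p : ℕ, p.Prime → p ∣ N → (p : ℝ) < (N : ℝ) ^ β := by
  have he : 0 ≤ ex β := by
    unfold ex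
    exact le_min (by linarith) (by linarith)
  obtain ⟨E, hE, hg⟩ := pow_alg_one (Bad β) (ex β) l he hl (count_halves_large (Bad β) (ex β) he (count β h1 h2))
  refine ⟨E, hE, fun α hα hαE c hc hca j D => ?_⟩
  filter_upwards [hg α hα hαE c hc hca j D] with n hn N hN hs p hp hpN
  by_contra hcon
  exact hn N hN ⟨hs, p, hp, hpN, not_lt.1 hcon⟩

end Pool.Agent.Results.MP_b50d59_nt.SolutionsNearPowers
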