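import Mathlib
import Pool.Agent.Q84.MB.F6
import Pool.Agent.TH43.LK.Main
import Pool.Agent.H95R2.Leh.Congr

/-!
# The congruence `n ≡ a(n) (mod φ(n))` for the multiples of the primes of a string

Let `0 < δ < 1`. For every `m` there is a `c > 0` and for every `Z` a number `C` such that for every large `X` there
is a set `S` of at most `(log X) ^ (49 / 50)` primes, all larger than `Z`, such that for EVERY function `f` with
values `1` and `-1` on the primes at least `X ^ (1 - δ / 4)` integers `n`, `X < n ≤ 3X`, satisfy: the interval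
`[n, n + C]` contains at least `m` primes, and for every prime `p` in it

* the symbol `(p / q)` is `f q` for all odd primes `q ≤ c log X` outside `S`; in particular `p - 1` is prime to all
  these `q` with `f q = -1`;
* NO composite multiple `N > 4` of `p` with `N ≤ p ^ (5/2 - δ)` satisfies `φ(N) ∣ N - a(N)`.
-/

set_option autoImplicit false

open scoped Classical

namespace Pool.Agent.Results.MP_b50d59_nt.StringsOfPrimes

open Finset Filter

/-- no composite multiple `4 < N ≤ p ^ (5/2 - δ)` of `p` satisfies the congruence -/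
def Good (δ : ℝ) (p : ℕ) : Prop :=
  ∀ N : ℕ, p ∣ N → 4 < N → ¬ N.Prime → (N : ℝ) ≤ (p : ℝ) ^ (5 / 2 - δ) → ¬ N.totient ∣ N - Nca8c8b9b.a N

lemma few (δ : ℝ) (hδ : 0 < δ) (hδ1 : δ < 1) :
    ∀ᶠ X : ℝ in atTop, ∀ P : Finset ℕ, (∀ p ∈ P, p.Prime ∧ X < p ∧ (p : ℝ) ≤ 4 * X ∧ ¬ Good δ p) →
      (P.card : ℝ) ≤ X ^ (1 - δ / 4) := by
  obtain ⟨a, ha⟩ : ∃ a : ℝ, a = 5 / 2 - δ := ⟨_, rfl⟩
  have ha0 : 0 < a := by rw [ha]; linarith
  have ha1 : 1 ≤ a := by rw [ha]; linarith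
  have ha2 : a ≤ 5 / 2 := by rw [ha]; linarith
  obtain ⟨K, hK, hmain⟩ := Pool.Agent.TH43.LK.main_one (δ / 10) (by positivity)
  obtain ⟨Y, hY⟩ : ∃ Y : ℕ → ℕ, Y = fun x : ℕ => ⌊(x : ℝ) ^ (1 / a) / 4⌋₊ := ⟨_, rfl⟩
  obtain ⟨E, hE⟩ : ∃ E : ℕ → Set ℕ, E = fun x => {N : ℕ | 1 ≤ N ∧ Pool.Agent.H95R2.Leh.Leh N ∧
    ∃ p : ℕ, p.Prime ∧ p ∣ N ∧ Y x < p} := ⟨_, rfl⟩
  have h1 : ∀ᶠ x : ℕ in atTop, (8 : ℝ) ≤ (x : ℝ) ^ (1 / a) :=
    ((tendsto_rpow_atTop (by positivity : 0 < 1 / a)).comp tendsto_natCast_atTop_atTop).eventually_ge_atTop 8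
  have h2 : ∀ᶠ x : ℕ in atTop, (8 : ℝ) ^ (4 : ℝ) ≤ (x : ℝ) ^ (3 / 5 : ℝ) :=
    ((tendsto_rpow_atTop (by norm_num : (0 : ℝ) < 3 / 5)).comp tendsto_natCast_atTop_atTop).eventually_ge_atTop _
  obtain ⟨x₀, hx₀⟩ := eventually_atTop.1 ((h1.and h2).and (eventually_ge_atTop 1))
  have h3 := Pool.Agent.Q84.MB.mult_bad_nat a (δ / 10 + 2 / 3 * (1 - 1 / a)) (1 - δ / 4) ha0
    (by
      have : 1 / a ≤ 1 := by rw [div_le_one ha0]; exact ha1
      have h4 : 0 ≤ 2 / 3 * (1 - 1 / a) := by linarith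
      linarith)
    (by
      have e1 : a * (1 / a) = 1 := by field_simp
      have e2 : a * (δ / 10 + 2 / 3 * (1 - 1 / a)) = a * δ / 10 + 2 / 3 * (a - 1) := by
        have : a * (δ / 10 + 2 / 3 * (1 - 1 / a)) = a * δ / 10 + 2 / 3 * (a - a * (1 / a)) := by ring
        rw [this, e1]
      rw [e2]
      have e3 : a * δ ≤ 5 / 2 * δ := mul_le_mul_of_nonneg_right ha2 hδ.le
      have e4 : 2 / 3 * (a - 1) = 1 - 2 / 3 * δ := by rw [ha]; ring
      linarith)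
    (K * 8 ^ (2 / 3 : ℝ)) x₀ E (fun x hx => by
      obtain ⟨⟨hx8, hx4⟩, hx1⟩ := hx₀ x hx
      have hx0 : (0 : ℝ) < x := by exact_mod_cast hx1
      have hYle : (Y x : ℝ) ≤ (x : ℝ) ^ (1 / a) / 4 := by rw [hY]; exact Nat.floor_le (by positivity)
      have hYge : (x : ℝ) ^ (1 / a) / 8 ≤ Y x := by
        have := Nat.lt_floor_add_one ((x : ℝ) ^ (1 / a) / 4)
        rw [hY]
        show _ ≤ ((⌊(x : ℝ) ^ (1 / a) / 4⌋₊ : ℕ) : ℝ)
        linarith
      have hY1 : 1 ≤ Y x := by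
        have : (1 : ℝ) ≤ Y x := by linarith
        exact_mod_cast this
      have hY0 : (0 : ℝ) < Y x := by exact_mod_cast hY1
      have hxY : x ≤ Y x ^ 4 := by
        have e1 : (x : ℝ) ≤ (Y x : ℝ) ^ 4 := by
          calc (x : ℝ) ≤ (x : ℝ) ^ (1 : ℝ) := by rw [Real.rpow_one]
            _ = (x : ℝ) ^ (8 / 5 : ℝ) / (x : ℝ) ^ (3 / 5 : ℝ) := by
                rw [← Real.rpow_sub hx0]
                norm_num
            _ ≤ (x : ℝ) ^ (8 / 5 : ℝ) / (8 : ℝ) ^ (4 : ℝ) :=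
                div_le_div_of_nonneg_left (by positivity) (by positivity) hx4
            _ ≤ (x : ℝ) ^ (4 / a) / (8 : ℝ) ^ (4 : ℝ) := by
                apply div_le_div_of_nonneg_right _ (by positivity)
                apply Real.rpow_le_rpow_of_exponent_le (by exact_mod_cast hx1)
                rw [le_div_iff₀ ha0]
                linarith
            _ = ((x : ℝ) ^ (1 / a) / 8) ^ 4 := by
                rw [div_pow, ← Real.rpow_natCast ((x : ℝ) ^ (1 / a)) 4, ← Real.rpow_mul hx0.le,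
                  ← Real.rpow_natCast (8 : ℝ) 4]
                norm_num
                congr 1
                ring
            _ ≤ (Y x : ℝ) ^ 4 := pow_le_pow_left₀ (by positivity) hYge 4
        exact_mod_cast e1
      have h4 := hmain x (Y x) hY1 hxY
      have hsub : {N : ℕ | N ≤ x ∧ N ∈ E x} ⊆ (Pool.Agent.TH43.LK.AA x (Y x) : Set ℕ) := by
        intro N hN
        obtain ⟨hN1, hN2⟩ := hN
        rw [hE] at hN2
        obtain ⟨h5, h6, h7⟩ := hN2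
        rw [mem_coe, Pool.Agent.TH43.LK.AA, mem_filter, mem_Icc]
        exact ⟨⟨h5, hN1⟩, h6, h7⟩
      have h5 := Set.ncard_le_ncard hsub (Finset.finite_toSet _)
      rw [Set.ncard_coe_finset] at h5
      have h6 : ({N : ℕ | N ≤ x ∧ N ∈ E x}.ncard : ℝ) ≤ ((Pool.Agent.TH43.LK.AA x (Y x)).card : ℝ) := by
        exact_mod_cast h5
      refine h6.trans (h4.trans ?_)
      have h7 : (x : ℝ) / Y x ≤ 8 * (x : ℝ) ^ (1 - 1 / a) := by
        rw [div_le_iff₀ hY0]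
        calc (x : ℝ) = 8 * (x : ℝ) ^ (1 - 1 / a) * ((x : ℝ) ^ (1 / a) / 8) := by
              have : (x : ℝ) ^ (1 - 1 / a) * (x : ℝ) ^ (1 / a) = x := by
                rw [← Real.rpow_add hx0]
                norm_num
              linarith
          _ ≤ 8 * (x : ℝ) ^ (1 - 1 / a) * Y x := mul_le_mul_of_nonneg_left hYge (by positivity)
      calc K * (x : ℝ) ^ (δ / 10) * ((x : ℝ) / Y x) ^ (2 / 3 : ℝ)
          ≤ K * (x : ℝ) ^ (δ / 10) * (8 * (x : ℝ) ^ (1 - 1 / a)) ^ (2 / 3 : ℝ) := by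
            apply mul_le_mul_of_nonneg_left _ (by positivity)
            exact Real.rpow_le_rpow (by positivity) h7 (by norm_num)
        _ = K * 8 ^ (2 / 3 : ℝ) * (x : ℝ) ^ (δ / 10 + 2 / 3 * (1 - 1 / a)) := by
            rw [Real.mul_rpow (by norm_num) (by positivity), ← Real.rpow_mul hx0.le, Real.rpow_add hx0,
              mul_comm (2 / 3 : ℝ) (1 - 1 / a)]
            ring)
  filter_upwards [h3, eventually_ge_atTop (1 : ℝ)] with X hX hX1
  intro P hP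
  refine hX P fun p hp => ?_
  obtain ⟨hpp, hXp, hp4, hg⟩ := hP p hp
  unfold Good at hg
  push Not at hg
  obtain ⟨N, hpN, hN4, hNp, hNa, hd⟩ := hg
  rw [← ha] at hNa
  refine ⟨hpp, hXp, N, by omega, hpN, ?_, ?_⟩
  · exact hNa.trans (Real.rpow_le_rpow (Nat.cast_nonneg _) hp4 ha0.le)
  · rw [hE]
    refine ⟨by omega, Pool.Agent.H95R2.Leh.leh_of_congr hN4 hNp hd, p, hpp, hpN, ?_⟩
    have h4 : (Y ⌊(4 * X) ^ a⌋₊ : ℝ) ≤ X := by
      rw [hY]
      refine (Nat.floor_le (by positivity)).trans ?_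
      rw [div_le_iff₀ (by norm_num)]
      calc ((⌊(4 * X) ^ a⌋₊ : ℕ) : ℝ) ^ (1 / a) ≤ ((4 * X) ^ a) ^ (1 / a) :=
            Real.rpow_le_rpow (Nat.cast_nonneg _) (Nat.floor_le (by positivity)) (by positivity)
        _ = X * 4 := by
            rw [← Real.rpow_mul (by positivity), mul_one_div_cancel ha0.ne', Real.rpow_one]
            ring
    have h5 : (Y ⌊(4 * X) ^ a⌋₊ : ℝ) < p := lt_of_le_of_lt h4 hXp
    exact_mod_cast h5

theorem result (δ : ℝ) (hδ : 0 < δ) (hδ1 : δ < 1) (m : ℕ) : ∃ c : ℝ, 0 < c ∧ ∀ Z : ℕ, ∃ C : ℕ, ∃ X₀ : ℝ,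
    ∀ X : ℝ, X₀ ≤ X →
    ∃ S : Finset ℕ, (∀ q ∈ S, q.Prime ∧ Z < q) ∧ (S.card : ℝ) ≤ (Real.log X) ^ (49 / 50 : ℝ) ∧
    ∀ f : ℕ → ℤ, (∀ q, f q = 1 ∨ f q = -1) →
      X ^ (1 - δ / 4) ≤ (((Icc 1 ⌊3 * X⌋₊).filter fun n : ℕ => X < n ∧
        m ≤ ((Icc n (n + C)).filter Nat.Prime).card ∧
        ∀ p ∈ Icc n (n + C), p.Prime → Good δ p ∧
          ∀ q : ℕ, q.Prime → q ≠ 2 → (q : ℝ) ≤ c * Real.log X → q ∉ S →
            jacobiSym p q = f q ∧ (f q = -1 → ¬ q ∣ p - 1)).card : ℝ) := by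
  obtain ⟨c, hc, hmain⟩ := Pool.Agent.Q84.MB.sym_strings m (δ / 4) (by positivity)
  refine ⟨c, hc, fun Z => ?_⟩
  obtain ⟨C, hC⟩ := hmain Z
  obtain ⟨X₀, hX₀⟩ := eventually_atTop.1 ((hC.and (few δ hδ hδ1)).and (eventually_ge_atTop (1 : ℝ)))
  refine ⟨C, X₀, fun X hX => ?_⟩
  obtain ⟨⟨⟨S, hS1, hS2, hS3⟩, hbad⟩, hX1⟩ := hX₀ X hX
  refine ⟨S, hS1, hS2, fun f hf => ?_⟩
  have hP : (((Icc 1 ⌊4 * X⌋₊).filter fun p : ℕ => p.Prime ∧ X < p ∧ ¬ Good δ p).card : ℝ) ≤ X ^ (1 - δ / 4) := by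
    refine hbad _ fun p hp => ?_
    rw [mem_filter, mem_Icc] at hp
    obtain ⟨⟨-, h1⟩, h2, h3, h4⟩ := hp
    exact ⟨h2, h3, (Nat.le_floor_iff (by linarith)).1 h1, h4⟩
  have h3 := hS3 f hf (Good δ) hP
  refine h3.trans ?_
  have hsub : ((Icc 1 ⌊3 * X⌋₊).filter fun n : ℕ => X < n ∧
        Pool.Agent.Q84.MB.SymStr m C (c * Real.log X) S f (Good δ) n) ⊆
      ((Icc 1 ⌊3 * X⌋₊).filter fun n : ℕ => X < n ∧
        m ≤ ((Icc n (n + C)).filter Nat.Prime).card ∧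
        ∀ p ∈ Icc n (n + C), p.Prime → Good δ p ∧
          ∀ q : ℕ, q.Prime → q ≠ 2 → (q : ℝ) ≤ c * Real.log X → q ∉ S →
            jacobiSym p q = f q ∧ (f q = -1 → ¬ q ∣ p - 1)) := by
    intro n hn
    rw [mem_filter] at hn ⊢
    obtain ⟨h4, h5, h6, h7⟩ := hn
    refine ⟨h4, h5, h6, fun p hp hpp => ⟨(h7 p hp hpp).1, fun q hq hq2 hqy hqS => ?_⟩⟩
    have h8 := (h7 p hp hpp).2 q hq hq2 hqy hqS
    refine ⟨h8, fun h9 h10 => ?_⟩
    obtain ⟨k, hk⟩ := h10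
    have h11 : (p : ℤ) = 1 + q * k := by
      have := hpp.one_lt
      have h12 : p = 1 + q * k := by omega
      exact_mod_cast h12
    have h13 : jacobiSym (p : ℤ) q = 1 := by
      rw [h11, jacobiSym.mod_left, Int.add_mul_emod_self_left, ← jacobiSym.mod_left]
      exact jacobiSym.one_left q
    rw [h13, h9] at h8
    exact absurd h8 (by decide)
  exact_mod_cast card_le_card hsub

end Pool.Agent.Results.MP_b50d59_nt.StringsOfPrimes
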